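import Mathlib

/-!
Approximate Lewis weights for a finite family of nonzero vectors.
-/

namespace Pool.Agent.Helper55.Zono

open Module Finset
open scoped InnerProductSpace

variable {E : Type*} [NormedAddCommGroup E] [InnerProductSpace ℝ E] [FiniteDimensional ℝ E]
  {κ : Type*} [Fintype κ]

/-- The map `θ ↦ (⟪v k, θ⟫ / √(c k))_k`. -/
noncomputable def Ac (v : κ → E) (c : κ → ℝ) : E →ₗ[ℝ] EuclideanSpace ℝ κ :=
  (WithLp.linearEquiv 2 ℝ (κ → ℝ)).symm.toLinearMap ∘ₗ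
    LinearMap.pi fun k => (1 / √(c k)) • innerₗ E (v k)

omit [FiniteDimensional ℝ E] [Fintype κ] in
lemma Ac_apply (v : κ → E) (c : κ → ℝ) (θ : E) (k : κ) :
    Ac v c θ k = (1 / √(c k)) * ⟪v k, θ⟫_ℝ := by
  simp [Ac]

/-- The Hilbert space attached to the weights `c`. -/
noncomputable abbrev Vc (v : κ → E) (c : κ → ℝ) : Submodule ℝ (EuclideanSpace ℝ κ) := LinearMap.range (Ac v c)

/-- The vectors representing the functionals `⟪v k, ·⟫`. -/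
noncomputable def wc [DecidableEq κ] (v : κ → E) (c : κ → ℝ) (k : κ) : Vc v c :=
  √(c k) • (Vc v c).orthogonalProjectionOnto (EuclideanSpace.single k (1 : ℝ))

variable [DecidableEq κ] (v : κ → E) (c : κ → ℝ)

omit [FiniteDimensional ℝ E] [DecidableEq κ] in
lemma vsmul (x y : Vc v c) (r : ℝ) : ⟪r • x, y⟫_ℝ = r * ⟪x, y⟫_ℝ :=
  inner_smul_left (𝕜 := ℝ) (E := Vc v c) x y r

lemma inner_wc (k : κ) (y : Vc v c) : ⟪wc v c k, y⟫_ℝ = √(c k) * (y : EuclideanSpace ℝ κ) k := by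
  rw [wc, vsmul, Submodule.inner_orthogonalProjectionOnto_eq_of_mem_right,
    EuclideanSpace.inner_single_left]
  simp

/-- The range element attached to `θ`. -/
noncomputable def ac (θ : E) : Vc v c := ⟨Ac v c θ, LinearMap.mem_range_self _ θ⟩

lemma inner_wc_ac (hc : ∀ k, 0 < c k) (k : κ) (θ : E) :
    ⟪wc v c k, ac v c θ⟫_ℝ = ⟪v k, θ⟫_ℝ := by
  rw [inner_wc]
  show √(c k) * Ac v c θ k = _
  rw [Ac_apply]
  have := (Real.sqrt_pos.2 (hc k)).ne'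
  field_simp

omit [FiniteDimensional ℝ E] [DecidableEq κ] in
lemma norm_ac_sq (hc : ∀ k, 0 < c k) (θ : E) :
    ‖ac v c θ‖ ^ 2 = ∑ k, ⟪v k, θ⟫_ℝ ^ 2 / c k := by
  have h1 : ‖ac v c θ‖ ^ 2 = ‖Ac v c θ‖ ^ 2 := rfl
  rw [h1, EuclideanSpace.real_norm_sq_eq]
  refine Finset.sum_congr rfl fun k _ => ?_
  rw [Ac_apply, mul_pow, div_pow, one_pow, Real.sq_sqrt (hc k).le]
  ring

lemma wc_A1 (hc : ∀ k, 0 < c k) (y : Vc v c) : ∑ k, (⟪wc v c k, y⟫_ℝ / c k) • wc v c k = y := by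
  refine ext_inner_right ℝ fun z => ?_
  rw [sum_inner]
  have h1 : ⟪y, z⟫_ℝ = ∑ k, (y : EuclideanSpace ℝ κ) k * (z : EuclideanSpace ℝ κ) k := by
    have h0 : ⟪y, z⟫_ℝ = ⟪(y : EuclideanSpace ℝ κ), (z : EuclideanSpace ℝ κ)⟫_ℝ := rfl
    rw [h0, PiLp.inner_apply]
    refine Finset.sum_congr rfl fun k _ => ?_
    simp [mul_comm]
  rw [h1]
  refine Finset.sum_congr rfl fun k _ => ?_
  rw [vsmul, inner_wc, inner_wc]
  have h2 := (hc k).ne'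
  have h3 := Real.mul_self_sqrt (hc k).le
  calc √(c k) * (y : EuclideanSpace ℝ κ) k / c k * (√(c k) * (z : EuclideanSpace ℝ κ) k)
      = (√(c k) * √(c k)) / c k * ((y : EuclideanSpace ℝ κ) k * (z : EuclideanSpace ℝ κ) k) := by
        ring
    _ = _ := by rw [h3, div_self h2, one_mul]

/-- Monotonicity of the norms in the weights. -/
lemma norm_wc_le {c c' : κ → ℝ} (hc : ∀ k, 0 < c k) (hc' : ∀ k, 0 < c' k) {α : ℝ} (hα : 0 ≤ α)
    (h : ∀ k, c k ≤ α * c' k) (k : κ) : ‖wc v c k‖ ≤ √α * ‖wc v c' k‖ := by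
  obtain ⟨θ, hθ⟩ : ∃ θ, ac v c θ = wc v c k := by
    obtain ⟨θ, hθ⟩ := (wc v c k).2
    exact ⟨θ, Subtype.ext hθ⟩
  have h1 : ‖wc v c k‖ ^ 2 = ⟪v k, θ⟫_ℝ := by
    rw [← real_inner_self_eq_norm_sq]
    nth_rw 2 [← hθ]
    exact inner_wc_ac v c hc k θ
  have h2 : ‖wc v c k‖ ^ 2 = ∑ j, ⟪v j, θ⟫_ℝ ^ 2 / c j := by
    rw [← hθ, norm_ac_sq v c hc]
  have h3 : ‖ac v c' θ‖ ^ 2 ≤ α * ‖wc v c k‖ ^ 2 := by
    rw [norm_ac_sq v c' hc', h2, Finset.mul_sum]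
    refine Finset.sum_le_sum fun j _ => ?_
    rw [← mul_div_assoc, div_le_div_iff₀ (hc' j) (hc j)]
    have := mul_le_mul_of_nonneg_left (h j) (sq_nonneg ⟪v j, θ⟫_ℝ)
    linarith
  have h4 : ⟪v k, θ⟫_ℝ ≤ ‖wc v c' k‖ * ‖ac v c' θ‖ := by
    rw [← inner_wc_ac v c' hc' k θ]
    exact real_inner_le_norm _ _
  have h5 : ‖ac v c' θ‖ ≤ √α * ‖wc v c k‖ := by
    refine le_of_sq_le_sq ?_ (by positivity)
    rw [mul_pow, Real.sq_sqrt hα]
    exact h3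
  have h6 : ‖wc v c k‖ ^ 2 ≤ ‖wc v c' k‖ * (√α * ‖wc v c k‖) := by
    rw [h1]
    exact h4.trans (mul_le_mul_of_nonneg_left h5 (norm_nonneg _))
  rcases (norm_nonneg (wc v c k)).eq_or_lt with h0 | h0
  · rw [← h0]; positivity
  · have h7 : ‖wc v c k‖ * ‖wc v c k‖ ≤ (√α * ‖wc v c' k‖) * ‖wc v c k‖ := by nlinarith
    exact le_of_mul_le_mul_right h7 h0

lemma norm_wc_pos (hc : ∀ k, 0 < c k) (k : κ) (hv : v k ≠ 0) : 0 < ‖wc v c k‖ := by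
  rw [norm_pos_iff]
  intro h0
  have := inner_wc_ac v c hc k (v k)
  rw [h0, inner_zero_left] at this
  exact hv (inner_self_eq_zero.1 this.symm)

lemma sum_norm_wc (hc : ∀ k, 0 < c k) : ∑ k, ‖wc v c k‖ ^ 2 / c k = finrank ℝ (Vc v c) := by
  let b := stdOrthonormalBasis ℝ (Vc v c)
  have h1 : ∀ y : Vc v c, ∑ k, ⟪wc v c k, y⟫_ℝ ^ 2 / c k = ‖y‖ ^ 2 := by
    intro y
    rw [← real_inner_self_eq_norm_sq]
    nth_rw 2 [← wc_A1 v c hc y]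
    rw [sum_inner]
    refine Finset.sum_congr rfl fun k _ => ?_
    rw [vsmul]
    ring
  calc ∑ k, ‖wc v c k‖ ^ 2 / c k = ∑ k, ∑ j, ⟪wc v c k, b j⟫_ℝ ^ 2 / c k := by
        refine Finset.sum_congr rfl fun k _ => ?_
        rw [← Finset.sum_div, b.sum_sq_inner_left]
    _ = ∑ j, ∑ k, ⟪wc v c k, b j⟫_ℝ ^ 2 / c k := Finset.sum_comm
    _ = ∑ _j : Fin (finrank ℝ (Vc v c)), (1 : ℝ) := by
        refine Finset.sum_congr rfl fun j _ => ?_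
        rw [h1, b.norm_eq_one]; norm_num
    _ = finrank ℝ (Vc v c) := by simp

/-- Existence of approximate Lewis weights. -/
theorem exists_lewis (hv : ∀ k, v k ≠ 0) :
    ∃ c : κ → ℝ, (∀ k, 0 < c k) ∧ (∀ k, ‖wc v c k‖ ≤ 2 * c k) ∧ (∀ k, c k ≤ 2 * ‖wc v c k‖) := by
  -- iterate the map `c ↦ ‖wc v c ·‖`
  let f : {c : κ → ℝ // ∀ k, 0 < c k} → {c : κ → ℝ // ∀ k, 0 < c k} := fun c =>
    ⟨fun k => ‖wc v c.1 k‖, fun k => norm_wc_pos v c.1 c.2 k (hv k)⟩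
  let c₀ : {c : κ → ℝ // ∀ k, 0 < c k} := ⟨fun _ => 1, fun _ => one_pos⟩
  obtain ⟨α₀, hα₀, h1, h2⟩ : ∃ α : ℝ, 1 ≤ α ∧ (∀ k, (f c₀).1 k ≤ α * c₀.1 k) ∧
      (∀ k, c₀.1 k ≤ α * (f c₀).1 k) := by
    refine ⟨1 + ∑ k, ((f c₀).1 k + 1 / (f c₀).1 k), ?_, fun k => ?_, fun k => ?_⟩
    · have : 0 ≤ ∑ k, ((f c₀).1 k + 1 / (f c₀).1 k) :=
        Finset.sum_nonneg fun k _ => by
          have := (f c₀).2 k
          positivity
      linarith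
    · have h3 : (f c₀).1 k + 1 / (f c₀).1 k ≤ ∑ k, ((f c₀).1 k + 1 / (f c₀).1 k) :=
        Finset.single_le_sum (f := fun k => (f c₀).1 k + 1 / (f c₀).1 k) (fun j _ => by
          have := (f c₀).2 j
          positivity) (Finset.mem_univ k)
      have h4 : 0 ≤ 1 / (f c₀).1 k := by
        have := (f c₀).2 k
        positivity
      show (f c₀).1 k ≤ (1 + ∑ k, ((f c₀).1 k + 1 / (f c₀).1 k)) * 1
      linarith
    · have h3 : (f c₀).1 k + 1 / (f c₀).1 k ≤ ∑ k, ((f c₀).1 k + 1 / (f c₀).1 k) :=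
        Finset.single_le_sum (f := fun k => (f c₀).1 k + 1 / (f c₀).1 k) (fun j _ => by
          have := (f c₀).2 j
          positivity) (Finset.mem_univ k)
      have h5 := (f c₀).2 k
      have h4 : 1 / (f c₀).1 k * (f c₀).1 k = 1 := by field_simp
      show (1 : ℝ) ≤ (1 + ∑ k, ((f c₀).1 k + 1 / (f c₀).1 k)) * (f c₀).1 k
      have h6 : 1 / (f c₀).1 k ≤ 1 + ∑ k, ((f c₀).1 k + 1 / (f c₀).1 k) := by linarith
      calc (1 : ℝ) = 1 / (f c₀).1 k * (f c₀).1 k := h4.symm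
        _ ≤ _ := mul_le_mul_of_nonneg_right h6 h5.le
  have key : ∀ j : ℕ, ∃ (α : ℝ) (c : {c : κ → ℝ // ∀ k, 0 < c k}), 1 ≤ α ∧
      α - 1 ≤ (α₀ - 1) / 2 ^ j ∧ (∀ k, (f c).1 k ≤ α * c.1 k) ∧ (∀ k, c.1 k ≤ α * (f c).1 k) := by
    intro j
    induction j with
    | zero => exact ⟨α₀, c₀, hα₀, by simp, h1, h2⟩
    | succ j ih =>
      obtain ⟨α, c, hα, hα', h3, h4⟩ := ih
      have hα0 : 0 ≤ α := by linarith
      have hs1 : 1 ≤ √α := Real.one_le_sqrt.2 hα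
      refine ⟨√α, f c, hs1, ?_, fun k => ?_, fun k => ?_⟩
      · have h5 : √α ^ 2 = α := Real.sq_sqrt hα0
        have h6 : √α - 1 ≤ (α - 1) / 2 := by nlinarith [sq_nonneg (√α - 1)]
        have h7 : (α₀ - 1) / 2 ^ (j+1) = (α₀ - 1) / 2 ^ j / 2 := by
          rw [pow_succ, div_div]
        rw [h7]
        linarith
      · exact norm_wc_le v (f c).2 c.2 hα0 h3 k
      · exact norm_wc_le v c.2 (f c).2 hα0 h4 k
  obtain ⟨j, hj⟩ := pow_unbounded_of_one_lt (α₀ - 1) (one_lt_two (α := ℝ))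
  obtain ⟨α, c, hα, hα', h3, h4⟩ := key j
  have h5 : (α₀ - 1) / 2 ^ j ≤ 1 := by
    rw [div_le_one (by positivity)]
    exact hj.le
  have h6 : α ≤ 2 := by linarith
  refine ⟨c.1, c.2, fun k => (h3 k).trans ?_, fun k => (h4 k).trans ?_⟩
  · exact mul_le_mul_of_nonneg_right h6 (c.2 k).le
  · exact mul_le_mul_of_nonneg_right h6 (norm_nonneg _)

end Pool.Agent.Helper55.Zono
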