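import Pool.Agent.Helper55.Zono.Partial
import Pool.Agent.Helper55.Zono.Lewis

/-!
Full colouring by iterating the partial colouring, and the vector balancing theorem.
-/

namespace Pool.Agent.Helper55.Zono

open Module Finset
open scoped InnerProductSpace

lemma sqrt_sqrt_le {a b q : ℝ} (ha : 0 ≤ b) (hq : 0 ≤ q) (h : a ≤ q ^ 4 * b) :
    √√a ≤ q * √√b := by
  have h1 : (q * √√b) ^ 2 = q ^ 2 * √b := by
    rw [mul_pow, Real.sq_sqrt (Real.sqrt_nonneg _)]
  have h2 : (q ^ 2 * √b) ^ 2 = q ^ 4 * b := by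
    rw [mul_pow, Real.sq_sqrt ha]; ring
  rw [Real.sqrt_le_iff]
  refine ⟨by positivity, ?_⟩
  rw [h1, Real.sqrt_le_iff]
  exact ⟨by positivity, by rw [h2]; exact h⟩

variable {V : Type*} [NormedAddCommGroup V] [InnerProductSpace ℝ V] [FiniteDimensional ℝ V]

/-- Rounding all fractional coordinates. -/
theorem full_coloring {κ ι : Type*} [Fintype κ] [Fintype ι] (w : κ → V) (c : κ → ℝ)
    (hc : ∀ k, 0 < c k) (hA1 : ∀ θ : V, ∑ k, (⟪w k, θ⟫_ℝ / c k) • w k = θ)
    (hA2 : ∀ k, ‖w k‖ ≤ 2 * c k) (D : ℝ) (hA3 : ∑ k, c k ≤ 4 * D)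
    (T : κ → ι → ℝ) (hT : ∀ k i, |T k i| ≤ 1) (a : ℕ) :
    ∀ x₀ : ι → ℝ, (∀ i, |x₀ i| ≤ 1) → (Finset.univ.filter fun i => |x₀ i| < 1).card = a →
      (a : ℝ) ≤ D →
    ∃ (x : ι → ℝ) (Z : κ → ℝ), (∀ i, |x i| = 1) ∧ (∀ k, |Z k| ≤ 2700 * √√((a : ℝ) * D)) ∧
      ∑ k, (∑ i, T k i * (x i - x₀ i)) • w k = ∑ k, Z k • w k := by
  classical
  induction a using Nat.strong_induction_on with
  | _ a ih =>
    intro x₀ hx₀ hcard haD
    rcases Nat.lt_or_ge a 10 with ha | ha
    · -- few fractional coordinates: round them arbitrarily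
      let x : ι → ℝ := fun i => if |x₀ i| < 1 then 1 else x₀ i
      refine ⟨x, fun k => ∑ i, T k i * (x i - x₀ i), fun i => ?_, fun k => ?_, rfl⟩
      · simp only [x]
        split_ifs with h
        · simp
        · exact le_antisymm (hx₀ i) (not_lt.1 h)
      · have h1 : |∑ i, T k i * (x i - x₀ i)| ≤ 2 * a := by
          calc |∑ i, T k i * (x i - x₀ i)| ≤ ∑ i, |T k i * (x i - x₀ i)| :=
                Finset.abs_sum_le_sum_abs _ _
            _ ≤ ∑ i, if |x₀ i| < 1 then (2 : ℝ) else 0 := by
                refine Finset.sum_le_sum fun i _ => ?_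
                simp only [x]
                split_ifs with h
                · rw [abs_mul]
                  have h2 := hT k i
                  have h3 : |1 - x₀ i| ≤ 2 := by
                    have := abs_le.1 (hx₀ i)
                    rw [abs_le]
                    constructor <;> linarith
                  calc |T k i| * |1 - x₀ i| ≤ 1 * 2 :=
                        mul_le_mul h2 h3 (abs_nonneg _) zero_le_one
                    _ = 2 := by norm_num
                · simp
            _ = 2 * a := by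
                rw [← Finset.sum_filter, Finset.sum_const, hcard, nsmul_eq_mul]
                ring
        rcases Nat.eq_zero_or_pos a with h0 | h0
        · rw [h0] at h1 ⊢
          simp only [Nat.cast_zero, mul_zero, zero_mul, Real.sqrt_zero] at h1 ⊢
          exact h1
        · have h2 : (1 : ℝ) ≤ a := by exact_mod_cast h0
          have h3 : (1 : ℝ) ≤ a * D := by nlinarith
          have h4 : (1 : ℝ) ≤ √√(a * D) := by
            rw [Real.one_le_sqrt, Real.one_le_sqrt]; exact h3
          have h5 : (a : ℝ) < 10 := by exact_mod_cast ha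
          linarith
    · -- partial colouring on the fractional coordinates
      let ι' := {i : ι // |x₀ i| < 1}
      have hcard' : Fintype.card ι' = a := by
        rw [Fintype.card_subtype]; exact hcard
      obtain ⟨x', Z', hx'1, hx'2, hZ', hlin'⟩ := partial_coloring w c hc hA1 hA2 D hA3
        (fun k (i : ι') => T k i) (fun k i => hT k i) (by rw [hcard']; exact ha)
        (by rw [hcard']; exact haD) (fun i : ι' => x₀ i) (fun i => hx₀ i)
      rw [hcard'] at hx'2 hZ'
      let x₁ : ι → ℝ := fun i => if h : |x₀ i| < 1 then x' ⟨i, h⟩ else x₀ i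
      have hx₁ : ∀ i, |x₁ i| ≤ 1 := by
        intro i
        simp only [x₁]
        split_ifs with h
        · exact hx'1 _
        · exact hx₀ i
      have hsum1 : ∀ k, ∑ i, T k i * (x₁ i - x₀ i) = ∑ i : ι', T k i * (x' i - x₀ i) := by
        intro k
        have h1 : ∑ i : ι', T k i * (x' i - x₀ i) = ∑ i : ι', T k i * (x₁ i - x₀ i) := by
          refine Finset.sum_congr rfl fun i _ => ?_
          simp only [x₁, dif_pos i.2]
          rfl
        rw [h1]
        have h2 : ∑ i ∈ (Finset.univ.filter fun i => |x₀ i| < 1), T k i * (x₁ i - x₀ i) =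
            ∑ i : ι', T k i * (x₁ i - x₀ i) := Finset.sum_subtype _ (fun i => by simp) _
        rw [← h2]
        symm
        refine Finset.sum_subset (Finset.subset_univ _) fun i _ hi => ?_
        have h3 : ¬ |x₀ i| < 1 := fun h => hi (Finset.mem_filter.2 ⟨Finset.mem_univ _, h⟩)
        simp only [x₁, dif_neg h3]
        ring
      set a₁ := (Finset.univ.filter fun i => |x₁ i| < 1).card with ha₁
      have ha₁' : a₁ = (Finset.univ.filter fun i => |x' i| < 1).card := by
        rw [ha₁]
        symm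
        refine Finset.card_bij (fun i _ => (i : ι)) ?_ ?_ ?_
        · intro i hi
          rw [Finset.mem_filter] at hi ⊢
          refine ⟨Finset.mem_univ _, ?_⟩
          simp only [x₁, dif_pos i.2]
          exact hi.2
        · intro i _ j _ hij
          exact Subtype.ext hij
        · intro i hi
          rw [Finset.mem_filter] at hi
          by_cases h : |x₀ i| < 1
          · refine ⟨⟨i, h⟩, ?_, rfl⟩
            rw [Finset.mem_filter]
            refine ⟨Finset.mem_univ _, ?_⟩
            have := hi.2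
            simpa only [x₁, dif_pos h] using this
          · exfalso
            have := hi.2
            simp only [x₁, dif_neg h] at this
            exact h this
      have ha₁2 : 2 * a₁ ≤ a := by rw [ha₁']; exact hx'2
      have ha₁lt : a₁ < a := by omega
      have ha₁R : 2 * (a₁ : ℝ) ≤ a := by exact_mod_cast ha₁2
      have hD0 : 0 ≤ D := (Nat.cast_nonneg a).trans haD
      have ha₁0 : (0 : ℝ) ≤ a₁ := Nat.cast_nonneg _
      obtain ⟨x₂, Z₂, hx₂, hZ₂, hlin₂⟩ := ih a₁ ha₁lt x₁ hx₁ rfl (by linarith)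
      refine ⟨x₂, fun k => Z' k + Z₂ k, hx₂, fun k => ?_, ?_⟩
      · have h1 := hZ' k
        have h2 := hZ₂ k
        have h3 : √√((a₁ : ℝ) * D) ≤ 0.85 * √√((a : ℝ) * D) := by
          refine sqrt_sqrt_le (by positivity) (by norm_num) ?_
          have : (a₁ : ℝ) * D ≤ a * D / 2 := by nlinarith
          have h4 : 0 ≤ (a : ℝ) * D := by positivity
          refine this.trans ?_
          norm_num
          nlinarith
        have h4 := abs_add_le (Z' k) (Z₂ k)
        have h5 : 0 ≤ √√((a : ℝ) * D) := Real.sqrt_nonneg _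
        nlinarith
      · calc ∑ k, (∑ i, T k i * (x₂ i - x₀ i)) • w k
            = ∑ k, (∑ i, T k i * (x₁ i - x₀ i)) • w k +
              ∑ k, (∑ i, T k i * (x₂ i - x₁ i)) • w k := by
                rw [← Finset.sum_add_distrib]
                refine Finset.sum_congr rfl fun k _ => ?_
                rw [← add_smul, ← Finset.sum_add_distrib]
                congr 1
                refine Finset.sum_congr rfl fun i _ => ?_
                ring
          _ = ∑ k, Z' k • w k + ∑ k, Z₂ k • w k := by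
                rw [hlin₂, ← hlin']
                simp only [hsum1]
          _ = ∑ k, (Z' k + Z₂ k) • w k := by
                rw [← Finset.sum_add_distrib]
                exact Finset.sum_congr rfl fun k _ => (add_smul _ _ _).symm

/-- Reduction to few fractional coordinates. -/
theorem reduce_coloring {ι : Type*} [Fintype ι] (u : ι → V) :
    ∃ x : ι → ℝ, (∀ i, |x i| ≤ 1) ∧ ∑ i, x i • u i = 0 ∧
      (Finset.univ.filter fun i => |x i| < 1).card ≤ finrank ℝ V := by
  classical
  let S : Set (ι → ℝ) := {x | (∀ i, |x i| ≤ 1) ∧ ∑ i, x i • u i = 0}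
  have hScomp : IsCompact S := by
    have hbox : IsCompact (Set.univ.pi fun _ : ι => Set.Icc (-1 : ℝ) 1) :=
      isCompact_univ_pi fun _ => isCompact_Icc
    refine hbox.of_isClosed_subset ?_ ?_
    · refine IsClosed.and ?_ ?_
      · simp only [Set.ofPred_forall]
        exact isClosed_iInter fun i => isClosed_le (by fun_prop) continuous_const
      · exact isClosed_eq (by fun_prop) continuous_const
    · rintro x ⟨h1, -⟩ i _
      exact abs_le.1 (h1 i)
  have hSne : S.Nonempty := ⟨0, by simp, by simp⟩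
  obtain ⟨x, ⟨hx1, hx2⟩, hmax⟩ := hScomp.exists_isMaxOn hSne
    (f := fun x : ι → ℝ => ∑ i, x i ^ 2) (by fun_prop)
  refine ⟨x, hx1, hx2, ?_⟩
  by_contra hcon
  rw [not_le] at hcon
  set alive := Finset.univ.filter fun i => |x i| < 1 with halive
  have hdep : ¬ LinearIndependent ℝ (fun i : alive => u i) := by
    intro hli
    have := hli.fintype_card_le_finrank
    rw [Fintype.card_coe] at this
    omega
  obtain ⟨g, hg, i₀, hi₀⟩ := Fintype.not_linearIndependent_iff.1 hdep
  let h : ι → ℝ := fun i => if hi : i ∈ alive then g ⟨i, hi⟩ else 0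
  have hhsum : ∑ i, h i • u i = 0 := by
    rw [← hg]
    have h1 : ∑ i : alive, g i • u i = ∑ i : alive, h i • u i := by
      refine Finset.sum_congr rfl fun i _ => ?_
      simp only [h, dif_pos i.2]
    rw [h1, Finset.sum_coe_sort alive (fun i => h i • u i)]
    symm
    refine Finset.sum_subset (Finset.subset_univ _) fun i _ hi => ?_
    simp only [h, dif_neg hi, zero_smul]
  have hh0 : 0 < ∑ i, h i ^ 2 := by
    refine Finset.sum_pos' (fun i _ => sq_nonneg _) ⟨i₀, Finset.mem_univ _, ?_⟩
    have : h i₀ = g i₀ := by simp only [h, dif_pos i₀.2]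
    rw [this]
    exact pow_pos (abs_pos.2 hi₀) 2 |>.trans_eq (sq_abs _)
  obtain ⟨γ, hγ, hγ'⟩ := exists_small (α := alive) (fun i => |x i|) (fun i => h i) (fun _ => 1)
    (fun i => (Finset.mem_filter.1 i.2).2)
  have hγx : ∀ s : ℝ, |s| = 1 → ∀ i, |x i + s * γ * h i| ≤ 1 := by
    intro s hs i
    by_cases hi : i ∈ alive
    · have h1 := hγ' γ hγ le_rfl ⟨i, hi⟩
      simp only at h1
      calc |x i + s * γ * h i| ≤ |x i| + |s * γ * h i| := abs_add_le _ _
        _ = |x i| + γ * |h i| := by rw [abs_mul, abs_mul, hs, abs_of_pos hγ, one_mul]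
        _ ≤ 1 := h1
    · have : h i = 0 := by simp only [h, dif_neg hi]
      rw [this, mul_zero, add_zero]
      exact hx1 i
  obtain ⟨s, hs, hs'⟩ : ∃ s : ℝ, |s| = 1 ∧ 0 ≤ s * ∑ i, x i * h i := by
    rcases le_total 0 (∑ i, x i * h i) with h1 | h1
    · exact ⟨1, by simp, by linarith⟩
    · exact ⟨-1, by simp, by linarith⟩
  have hmem : (fun i => x i + s * γ * h i) ∈ S := by
    refine ⟨hγx s hs, ?_⟩
    calc ∑ i, (x i + s * γ * h i) • u i = ∑ i, x i • u i + (s * γ) • ∑ i, h i • u i := by
          rw [Finset.smul_sum, ← Finset.sum_add_distrib]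
          refine Finset.sum_congr rfl fun i _ => ?_
          rw [smul_smul, ← add_smul]
      _ = 0 := by rw [hx2, hhsum]; simp
  have h1 := hmax hmem
  simp only [Set.mem_ofPred_eq] at h1
  have hs2 : s ^ 2 = 1 := by rw [← sq_abs, hs]; norm_num
  have h2 : ∑ i, (x i + s * γ * h i) ^ 2 =
      ∑ i, x i ^ 2 + 2 * γ * (s * ∑ i, x i * h i) + s ^ 2 * γ ^ 2 * ∑ i, h i ^ 2 := by
    rw [Finset.mul_sum, Finset.mul_sum, Finset.mul_sum, ← Finset.sum_add_distrib,
      ← Finset.sum_add_distrib]
    refine Finset.sum_congr rfl fun i _ => ?_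
    ring
  rw [h2, hs2] at h1
  have h3 : 0 < γ ^ 2 * ∑ i, h i ^ 2 := by positivity
  have h4 : 0 ≤ 2 * γ * (s * ∑ i, x i * h i) := by positivity
  linarith

/-- The vector balancing theorem for zonotopes generated by nonzero vectors. -/
theorem balancing_nonzero {E : Type*} [NormedAddCommGroup E] [InnerProductSpace ℝ E]
    [FiniteDimensional ℝ E] {κ ι : Type*} [Fintype κ] [Fintype ι] (v : κ → E)
    (hv : ∀ k, v k ≠ 0) (T : κ → ι → ℝ) (hT : ∀ k i, |T k i| ≤ 1) :
    ∃ (x : ι → ℝ) (Z : κ → ℝ), (∀ i, |x i| = 1) ∧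
      (∀ k, |Z k| ≤ 2700 * √(finrank ℝ E)) ∧
      ∑ k, (∑ i, T k i * x i) • v k = ∑ k, Z k • v k := by
  classical
  obtain ⟨c, hc, hc1, hc2⟩ := exists_lewis v hv
  have hr : finrank ℝ (Vc v c) ≤ finrank ℝ E := LinearMap.finrank_range_le _
  have hrR : (finrank ℝ (Vc v c) : ℝ) ≤ finrank ℝ E := by exact_mod_cast hr
  have hA3 : ∑ k, c k ≤ 4 * (finrank ℝ E : ℝ) := by
    calc ∑ k, c k ≤ ∑ k, 4 * (‖wc v c k‖ ^ 2 / c k) := by
          refine Finset.sum_le_sum fun k _ => ?_
          rw [← mul_div_assoc, le_div_iff₀ (hc k)]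
          have := hc2 k
          have h1 := (hc k).le
          nlinarith [norm_nonneg (wc v c k)]
      _ = 4 * (finrank ℝ (Vc v c) : ℝ) := by rw [← Finset.mul_sum, sum_norm_wc v c hc]
      _ ≤ 4 * (finrank ℝ E : ℝ) := by linarith
  -- reduce the number of fractional coordinates
  obtain ⟨x₀, hx₀, hx₀sum, hx₀card⟩ := reduce_coloring (fun i => ∑ k, T k i • wc v c k)
  obtain ⟨x, Z, hx, hZ, hlin⟩ := full_coloring (fun k => wc v c k) c hc (wc_A1 v c hc) hc1
    (finrank ℝ E : ℝ) hA3 T hT _ x₀ hx₀ rfl (by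
      have : (Finset.univ.filter fun i => |x₀ i| < 1).card ≤ finrank ℝ E := hx₀card.trans hr
      exact_mod_cast this)
  have h0 : ∑ k, (∑ i, T k i * x₀ i) • wc v c k = 0 := by
    rw [← hx₀sum]
    simp_rw [Finset.smul_sum, Finset.sum_smul, smul_smul]
    rw [Finset.sum_comm]
    refine Finset.sum_congr rfl fun i _ => Finset.sum_congr rfl fun k _ => ?_
    rw [mul_comm]
  have h1 : ∑ k, (∑ i, T k i * x i) • wc v c k = ∑ k, Z k • wc v c k := by
    rw [← hlin, ← sub_eq_zero, ← Finset.sum_sub_distrib, ← h0]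
    refine Finset.sum_congr rfl fun k _ => ?_
    rw [← sub_smul, ← Finset.sum_sub_distrib]
    congr 1
    refine Finset.sum_congr rfl fun i _ => ?_
    ring
  refine ⟨x, Z, hx, fun k => (hZ k).trans ?_, ?_⟩
  · refine mul_le_mul_of_nonneg_left ?_ (by norm_num)
    have h2 : ((Finset.univ.filter fun i => |x₀ i| < 1).card : ℝ) ≤ finrank ℝ E := by
      have : (Finset.univ.filter fun i => |x₀ i| < 1).card ≤ finrank ℝ E := hx₀card.trans hr
      exact_mod_cast this
    refine Real.sqrt_le_sqrt ?_
    rw [Real.sqrt_le_iff]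
    refine ⟨Nat.cast_nonneg _, ?_⟩
    have h3 : (0 : ℝ) ≤ finrank ℝ E := Nat.cast_nonneg _
    nlinarith
  · -- transfer the identity from the Hilbert space of the weights
    refine ext_inner_right ℝ fun θ => ?_
    have h2 : ⟪∑ k, (∑ i, T k i * x i) • wc v c k, ac v c θ⟫_ℝ =
        ⟪∑ k, Z k • wc v c k, ac v c θ⟫_ℝ := by rw [h1]
    rw [sum_inner, sum_inner] at h2
    rw [sum_inner, sum_inner]
    have h3 : ∀ (k : κ) (r : ℝ), ⟪r • v k, θ⟫_ℝ = ⟪r • wc v c k, ac v c θ⟫_ℝ := by
      intro k r
      rw [vsmul, inner_wc_ac v c hc, real_inner_smul_left]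
    simp only [h3]
    exact h2

end Pool.Agent.Helper55.Zono
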