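import Pool.Agent.Helper55.Zono.Spec

/-!
The choice of a direction in which the coefficients of saturated segments do not move and the
exponential potential grows slowly.
-/

namespace Pool.Agent.Helper55.Zono

open Module Finset
open scoped InnerProductSpace

variable {V H : Type*} [NormedAddCommGroup V] [InnerProductSpace ℝ V] [FiniteDimensional ℝ V]
  [NormedAddCommGroup H] [InnerProductSpace ℝ H] [FiniteDimensional ℝ H]

omit [FiniteDimensional ℝ V] in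
/-- A weighted Cauchy-Schwarz bound for the norm of a combination. -/
lemma norm_sq_sum_le {κ : Type*} (s : Finset κ) (w : κ → V) (c : κ → ℝ) (hc : ∀ k, 0 < c k)
    (hA : ∀ θ : V, ∑ k ∈ s, ⟪w k, θ⟫_ℝ ^ 2 / c k ≤ ‖θ‖ ^ 2) (a : κ → ℝ) :
    ‖∑ k ∈ s, a k • w k‖ ^ 2 ≤ ∑ k ∈ s, c k * a k ^ 2 := by
  set y := ∑ k ∈ s, a k • w k with hy
  have h1 : ‖y‖ ^ 2 = ∑ k ∈ s, a k * ⟪w k, y⟫_ℝ := by
    rw [← real_inner_self_eq_norm_sq]
    nth_rw 1 [hy]
    rw [sum_inner]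
    exact Finset.sum_congr rfl fun k _ => real_inner_smul_left _ _ _
  have h2 : (∑ k ∈ s, a k * ⟪w k, y⟫_ℝ) ^ 2 ≤
      (∑ k ∈ s, c k * a k ^ 2) * ∑ k ∈ s, ⟪w k, y⟫_ℝ ^ 2 / c k := by
    refine Finset.sum_sq_le_sum_mul_sum_of_sq_le_mul s (fun k _ => ?_) (fun k _ => ?_) fun k _ => ?_
    · exact mul_nonneg (hc k).le (sq_nonneg _)
    · exact div_nonneg (sq_nonneg _) (hc k).le
    · have := (hc k).ne'
      apply le_of_eq
      field_simp
  have h3 : 0 ≤ ∑ k ∈ s, c k * a k ^ 2 :=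
    Finset.sum_nonneg fun k _ => mul_nonneg (hc k).le (sq_nonneg _)
  have h4 : (‖y‖ ^ 2) ^ 2 ≤ (∑ k ∈ s, c k * a k ^ 2) * ‖y‖ ^ 2 := by
    rw [← h1] at h2
    exact h2.trans (mul_le_mul_of_nonneg_left (hA y) h3)
  rcases (sq_nonneg ‖y‖).eq_or_lt with h | h
  · rw [← h]; exact h3
  · rw [sq (‖y‖ ^ 2)] at h4
    exact le_of_mul_le_mul_right h4 h

omit [FiniteDimensional ℝ V] in
/-- Bound for the sum of squares of the coefficients of an operator along a basis. -/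
lemma sum_inner_map_sq_le {W ι : Type*} [NormedAddCommGroup W] [InnerProductSpace ℝ W]
    [Fintype ι] (b : OrthonormalBasis ι ℝ W) (R : W →ₗ[ℝ] V) {ρ : ℝ} (hρ : 0 ≤ ρ)
    (hR : ∀ h, ‖R h‖ ^ 2 ≤ ρ * ‖h‖ ^ 2) (v : V) :
    ∑ i, ⟪v, R (b i)⟫_ℝ ^ 2 ≤ ρ * ‖v‖ ^ 2 := by
  set y : W := ∑ i, ⟪v, R (b i)⟫_ℝ • b i with hy
  set t := ∑ i, ⟪v, R (b i)⟫_ℝ ^ 2 with ht
  have h1 : ‖y‖ ^ 2 = t := by
    rw [← b.sum_sq_inner_right y]
    refine Finset.sum_congr rfl fun i _ => ?_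
    congr 1
    rw [hy, inner_sum]
    simp_rw [real_inner_smul_right]
    rw [Finset.sum_eq_single i]
    · rw [real_inner_self_eq_norm_sq, b.norm_eq_one]; ring
    · intro j _ hj
      rw [b.inner_eq_zero hj.symm, mul_zero]
    · intro h
      exact absurd (Finset.mem_univ i) h
  have h2 : ⟪v, R y⟫_ℝ = t := by
    rw [hy, map_sum, inner_sum]
    refine Finset.sum_congr rfl fun i _ => ?_
    rw [map_smul, real_inner_smul_right]
    ring
  have h3 : t ^ 2 ≤ ‖v‖ ^ 2 * (ρ * t) := by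
    have h4 : |⟪v, R y⟫_ℝ| ≤ ‖v‖ * ‖R y‖ := abs_real_inner_le_norm _ _
    have h5 : ⟪v, R y⟫_ℝ ^ 2 ≤ ‖v‖ ^ 2 * ‖R y‖ ^ 2 := by
      rw [← sq_abs, ← mul_pow]
      exact pow_le_pow_left₀ (abs_nonneg _) h4 2
    rw [h2] at h5
    refine h5.trans (mul_le_mul_of_nonneg_left ?_ (sq_nonneg _))
    rw [← h1]
    exact hR y
  have ht0 : 0 ≤ t := Finset.sum_nonneg fun i _ => sq_nonneg _
  rcases ht0.eq_or_lt with h | h
  · rw [← h]; exact mul_nonneg hρ (sq_nonneg _)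
  · have : t * t ≤ (ρ * ‖v‖ ^ 2) * t := by nlinarith
    exact le_of_mul_le_mul_right this h

theorem exists_direction {κ : Type*} [Fintype κ] (w : κ → V) (c : κ → ℝ) (hc : ∀ k, 0 < c k)
    (hA1 : ∀ θ : V, ∑ k, (⟪w k, θ⟫_ℝ / c k) • w k = θ) (hA2 : ∀ k, ‖w k‖ ≤ 2 * c k)
    (τ : κ → H) (n : ℝ) (hn : 10 ≤ n) (hτ : ∀ k, ‖τ k‖ ^ 2 ≤ n)
    (S₁ : Submodule ℝ H) (hS₁ : n / 2 - 1 ≤ (finrank ℝ S₁ : ℝ))
    (B : Finset κ) (hB : ∑ k ∈ B, c k ≤ n / 400) (p : κ → ℝ) (hp : ∀ k, 0 ≤ p k) :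
    ∃ h ∈ S₁, ‖h‖ = 1 ∧ ∃ q : κ → ℝ, (∀ k ∈ B, q k = 0) ∧
      ∑ k, ⟪τ k, h⟫_ℝ • w k = ∑ k, q k • w k ∧ ∑ k, p k * q k ^ 2 ≤ 12 * ∑ k, p k := by
  classical
  have hA3 : ∀ θ : V, ∑ k, ⟪w k, θ⟫_ℝ ^ 2 / c k = ‖θ‖ ^ 2 := by
    intro θ
    rw [← real_inner_self_eq_norm_sq]
    nth_rw 2 [← hA1 θ]
    rw [sum_inner]
    refine Finset.sum_congr rfl fun k _ => ?_
    rw [real_inner_smul_left]
    ring
  have hA4 : ∀ θ : V, ∑ k ∈ B, ⟪w k, θ⟫_ℝ ^ 2 / c k ≤ ‖θ‖ ^ 2 := by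
    intro θ
    rw [← hA3 θ]
    exact Finset.sum_le_sum_of_subset_of_nonneg (Finset.subset_univ _)
      fun k _ _ => div_nonneg (sq_nonneg _) (hc k).le
  -- first spectral decomposition, in `V`
  obtain ⟨f, μ, hμ0, hM, -, hMs⟩ := exists_spec B (fun k => (1 / √(c k)) • w k)
  have hsqrt : ∀ k, √(c k) * √(c k) = c k := fun k => Real.mul_self_sqrt (hc k).le
  have hsqrt0 : ∀ k, √(c k) ≠ 0 := fun k => (Real.sqrt_pos.2 (hc k)).ne'
  have hM' : ∀ x, ∑ k ∈ B, (⟪w k, x⟫_ℝ / c k) • w k = ∑ j, (μ j * ⟪f j, x⟫_ℝ) • f j := by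
    intro x
    rw [← hM x]
    refine Finset.sum_congr rfl fun k _ => ?_
    rw [real_inner_smul_left, smul_smul]
    congr 1
    have h1 := hsqrt k
    have h2 := hsqrt0 k
    rw [mul_right_comm, one_div, ← mul_inv, h1]
    ring
  have hMs' : ∑ j, μ j ≤ n / 100 := by
    rw [hMs]
    calc ∑ k ∈ B, ‖(1 / √(c k)) • w k‖ ^ 2 ≤ ∑ k ∈ B, 4 * c k := by
          refine Finset.sum_le_sum fun k _ => ?_
          rw [norm_smul, mul_pow, Real.norm_eq_abs, sq_abs, div_pow, one_pow,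
            Real.sq_sqrt (hc k).le, one_div, inv_mul_le_iff₀ (hc k)]
          have h1 := hA2 k
          have h2 := norm_nonneg (w k)
          nlinarith [pow_le_pow_left₀ h2 h1 2]
      _ = 4 * ∑ k ∈ B, c k := by rw [Finset.mul_sum]
      _ ≤ n / 100 := by linarith
  -- second spectral decomposition, in `H`
  obtain ⟨g, ν, hν0, -, hNq, hNs⟩ := exists_spec B (fun k => √(c k) • τ k)
  have hNq' : ∀ x, ∑ k ∈ B, c k * ⟪τ k, x⟫_ℝ ^ 2 = ∑ j, ν j * ⟪g j, x⟫_ℝ ^ 2 := by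
    intro x
    rw [← hNq x]
    refine Finset.sum_congr rfl fun k _ => ?_
    rw [real_inner_smul_left, mul_pow, Real.sq_sqrt (hc k).le]
  have hNs' : ∑ j, ν j ≤ n * (n / 400) := by
    rw [hNs]
    calc ∑ k ∈ B, ‖√(c k) • τ k‖ ^ 2 ≤ ∑ k ∈ B, n * c k := by
          refine Finset.sum_le_sum fun k _ => ?_
          rw [norm_smul, mul_pow, Real.norm_eq_abs, sq_abs, Real.sq_sqrt (hc k).le, mul_comm]
          exact mul_le_mul_of_nonneg_right (hτ k) (hc k).le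
      _ = n * ∑ k ∈ B, c k := by rw [Finset.mul_sum]
      _ ≤ n * (n / 400) := mul_le_mul_of_nonneg_left hB (by linarith)
  let J₁ := Finset.univ.filter fun j => 1 / 2 < μ j
  let J₂ := Finset.univ.filter fun j => n / 20 < ν j
  have hJ₁ : (J₁.card : ℝ) ≤ n / 50 := by
    have := card_large μ hμ0 (a := 1 / 2) hMs'
    have h2 : 1 / 2 * (J₁.card : ℝ) ≤ n / 100 := this
    linarith
  have hJ₂ : (J₂.card : ℝ) ≤ n / 20 := by
    have h2 : n / 20 * (J₂.card : ℝ) ≤ n * (n / 400) := card_large ν hν0 (a := n / 20) hNs'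
    have hn0 : 0 < n / 20 := by linarith
    have h3 : n / 20 * (J₂.card : ℝ) ≤ n / 20 * (n / 20) := by
      refine h2.trans (le_of_eq (by ring))
    exact le_of_mul_le_mul_left h3 hn0
  -- the operators `U` and `R`
  let U : H →ₗ[ℝ] V := ∑ k ∈ B, (LinearMap.toSpanSingleton ℝ V (w k)).comp (innerₗ H (τ k))
  have hU : ∀ h, U h = ∑ k ∈ B, ⟪τ k, h⟫_ℝ • w k := by
    intro h
    simp only [U, LinearMap.sum_apply, LinearMap.comp_apply, innerₗ_apply_apply,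
      LinearMap.toSpanSingleton_apply]
  let R : H →ₗ[ℝ] V := ∑ j ∈ J₁ᶜ, (LinearMap.toSpanSingleton ℝ V (f j)).comp
    (((1 / (1 - μ j)) • innerₗ V (f j)).comp U)
  have hR : ∀ h, R h = ∑ j ∈ J₁ᶜ, ((1 / (1 - μ j)) * ⟪f j, U h⟫_ℝ) • f j := by
    intro h
    simp only [R, LinearMap.sum_apply, LinearMap.comp_apply, LinearMap.smul_apply,
      innerₗ_apply_apply, LinearMap.toSpanSingleton_apply, smul_eq_mul]
  have hRf : ∀ h j, ⟪f j, R h⟫_ℝ = if j ∈ J₁ then 0 else (1 / (1 - μ j)) * ⟪f j, U h⟫_ℝ := by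
    intro h j
    rw [hR, inner_sum]
    simp_rw [real_inner_smul_right]
    split_ifs with hj
    · refine Finset.sum_eq_zero fun i hi => ?_
      have : j ≠ i := by
        rintro rfl
        exact (Finset.mem_compl.1 hi) hj
      rw [f.inner_eq_zero this, mul_zero]
    · rw [Finset.sum_eq_single j]
      · rw [real_inner_self_eq_norm_sq, f.norm_eq_one]; ring
      · intro i _ hij
        rw [f.inner_eq_zero hij.symm, mul_zero]
      · intro h'
        exact absurd (Finset.mem_compl.2 hj) h'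
  have hμle : ∀ j, j ∉ J₁ → μ j ≤ 1 / 2 := by
    intro j hj
    by_contra hcon
    exact hj (Finset.mem_filter.2 ⟨Finset.mem_univ _, not_le.1 hcon⟩)
  have hνle : ∀ j, j ∉ J₂ → ν j ≤ n / 20 := by
    intro j hj
    by_contra hcon
    exact hj (Finset.mem_filter.2 ⟨Finset.mem_univ _, not_le.1 hcon⟩)
  have hRnorm : ∀ h, ‖R h‖ ^ 2 ≤ 4 * ‖U h‖ ^ 2 := by
    intro h
    rw [← f.sum_sq_inner_right (R h), ← f.sum_sq_inner_right (U h), Finset.mul_sum]
    refine Finset.sum_le_sum fun j _ => ?_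
    rw [hRf]
    split_ifs with hj
    · have := sq_nonneg ⟪f j, U h⟫_ℝ
      nlinarith
    · have h1 := hμle j hj
      have h2 : 0 < 1 - μ j := by linarith
      have h3 : 1 / (1 - μ j) ≤ 2 := by
        rw [div_le_iff₀ h2]; linarith
      have h4 : 0 ≤ 1 / (1 - μ j) := by positivity
      rw [mul_pow]
      refine mul_le_mul_of_nonneg_right ?_ (sq_nonneg _)
      nlinarith
  -- the subspace
  obtain ⟨S, hSS₁, hSker, hSrank⟩ := exists_submodule_ker S₁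
    (α := J₁ ⊕ J₂) (fun a => Sum.elim (fun j : J₁ => (innerₗ V (f j)).comp U)
      (fun j : J₂ => innerₗ H (g j)) a)
  have hSJ₁ : ∀ h ∈ S, ∀ j ∈ J₁, ⟪f j, U h⟫_ℝ = 0 := by
    intro h hh j hj
    have := hSker h hh (Sum.inl ⟨j, hj⟩)
    simpa using this
  have hSJ₂ : ∀ h ∈ S, ∀ j ∈ J₂, ⟪g j, h⟫_ℝ = 0 := by
    intro h hh j hj
    have := hSker h hh (Sum.inr ⟨j, hj⟩)
    simpa using this
  have hSdim : 3 / 10 * n ≤ (finrank ℝ S : ℝ) := by
    have h1 : (finrank ℝ S₁ : ℝ) ≤ finrank ℝ S + (J₁.card + J₂.card) := by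
      have h2 : Fintype.card (J₁ ⊕ J₂) = J₁.card + J₂.card := by simp
      rw [h2] at hSrank
      exact_mod_cast hSrank
    linarith
  have hUS : ∀ h ∈ S, ‖U h‖ ^ 2 ≤ n / 20 * ‖h‖ ^ 2 := by
    intro h hh
    rw [hU]
    refine (norm_sq_sum_le B w c hc hA4 _).trans ?_
    rw [hNq', ← g.sum_sq_inner_right h, Finset.mul_sum]
    refine Finset.sum_le_sum fun j _ => ?_
    by_cases hj : j ∈ J₂
    · rw [hSJ₂ h hh j hj]; simp
    · exact mul_le_mul_of_nonneg_right (hνle j hj) (sq_nonneg _)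
  have hRM : ∀ h ∈ S, R h - ∑ k ∈ B, (⟪w k, R h⟫_ℝ / c k) • w k = U h := by
    intro h hh
    calc R h - ∑ k ∈ B, (⟪w k, R h⟫_ℝ / c k) • w k
        = ∑ j, ⟪f j, R h⟫_ℝ • f j - ∑ j, (μ j * ⟪f j, R h⟫_ℝ) • f j := by
          rw [hM', f.sum_repr' (R h)]
      _ = ∑ j, (⟪f j, R h⟫_ℝ - μ j * ⟪f j, R h⟫_ℝ) • f j := by
          rw [← Finset.sum_sub_distrib]
          exact Finset.sum_congr rfl fun j _ => (sub_smul _ _ _).symm
      _ = ∑ j, ⟪f j, U h⟫_ℝ • f j := by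
          refine Finset.sum_congr rfl fun j _ => ?_
          congr 1
          rw [hRf]
          split_ifs with hj
          · rw [hSJ₁ h hh j hj]; ring
          · have h1 := hμle j hj
            have h2 : 1 - μ j ≠ 0 := by linarith
            field_simp
      _ = U h := f.sum_repr' (U h)
  -- the coefficients
  let q : H → κ → ℝ := fun h k => if k ∈ B then 0 else ⟪τ k, h⟫_ℝ + ⟪w k, R h⟫_ℝ / c k
  have hq : ∀ h ∈ S, ∑ k, ⟪τ k, h⟫_ℝ • w k = ∑ k, q h k • w k := by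
    intro h hh
    have h1 : ∑ k, q h k • w k = ∑ k ∈ Bᶜ, (⟪τ k, h⟫_ℝ • w k + (⟪w k, R h⟫_ℝ / c k) • w k) := by
      rw [← Finset.sum_add_sum_compl B]
      rw [Finset.sum_eq_zero, zero_add]
      · refine Finset.sum_congr rfl fun k hk => ?_
        simp only [q, if_neg (Finset.mem_compl.1 hk), add_smul]
      · intro k hk
        simp only [q, if_pos hk, zero_smul]
    rw [h1, Finset.sum_add_distrib, ← Finset.sum_add_sum_compl B (fun k => ⟪τ k, h⟫_ℝ • w k)]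
    have h2 : ∑ k ∈ Bᶜ, (⟪w k, R h⟫_ℝ / c k) • w k =
        R h - ∑ k ∈ B, (⟪w k, R h⟫_ℝ / c k) • w k := by
      rw [eq_sub_iff_add_eq, Finset.sum_compl_add_sum]
      exact hA1 _
    rw [h2, hRM h hh, hU, add_comm]
  -- averaging over an orthonormal basis of `S`
  let b := stdOrthonormalBasis ℝ S
  have hτb : ∀ k, ∑ i, ⟪τ k, (b i : H)⟫_ℝ ^ 2 ≤ n := by
    intro k
    have := sum_inner_map_sq_le b S.subtype (ρ := 1) zero_le_one (fun h => by simp) (τ k)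
    simp only [Submodule.subtype_apply, one_mul] at this
    exact this.trans (hτ k)
  have hRb : ∀ k, ∑ i, (⟪w k, R (b i : H)⟫_ℝ / c k) ^ 2 ≤ 4 / 5 * n := by
    intro k
    have h1 := sum_inner_map_sq_le b (R.comp S.subtype) (ρ := n / 5) (by linarith) (fun h => by
      simp only [LinearMap.comp_apply, Submodule.subtype_apply]
      refine (hRnorm _).trans ?_
      have := hUS h h.2
      have h3 : ‖(h : H)‖ = ‖h‖ := rfl
      rw [← h3]
      linarith) (w k)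
    simp only [LinearMap.comp_apply, Submodule.subtype_apply] at h1
    simp_rw [div_pow]
    rw [← Finset.sum_div, div_le_iff₀ (pow_pos (hc k) 2)]
    refine h1.trans ?_
    have h2 := hA2 k
    have h3 := norm_nonneg (w k)
    have h4 : ‖w k‖ ^ 2 ≤ 4 * c k ^ 2 := by nlinarith [pow_le_pow_left₀ h3 h2 2]
    nlinarith
  have hqb : ∀ k, ∑ i, q (b i : H) k ^ 2 ≤ 18 / 5 * n := by
    intro k
    have h1 : ∀ i, q (b i : H) k ^ 2 ≤
        2 * ⟪τ k, (b i : H)⟫_ℝ ^ 2 + 2 * (⟪w k, R (b i : H)⟫_ℝ / c k) ^ 2 := by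
      intro i
      simp only [q]
      split_ifs with hk
      · have h2 := sq_nonneg ⟪τ k, (b i : H)⟫_ℝ
        have h3 := sq_nonneg (⟪w k, R (b i : H)⟫_ℝ / c k)
        linarith
      · nlinarith [sq_nonneg (⟪τ k, (b i : H)⟫_ℝ - ⟪w k, R (b i : H)⟫_ℝ / c k)]
    calc ∑ i, q (b i : H) k ^ 2 ≤
        ∑ i, (2 * ⟪τ k, (b i : H)⟫_ℝ ^ 2 + 2 * (⟪w k, R (b i : H)⟫_ℝ / c k) ^ 2) :=
          Finset.sum_le_sum fun i _ => h1 i
      _ = 2 * ∑ i, ⟪τ k, (b i : H)⟫_ℝ ^ 2 + 2 * ∑ i, (⟪w k, R (b i : H)⟫_ℝ / c k) ^ 2 := by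
          rw [Finset.sum_add_distrib, Finset.mul_sum, Finset.mul_sum]
      _ ≤ 18 / 5 * n := by
          have := hτb k
          have := hRb k
          linarith
  have htot : ∑ i, ∑ k, p k * q (b i : H) k ^ 2 ≤ ∑ i : Fin (finrank ℝ S), 12 * ∑ k, p k := by
    rw [Finset.sum_comm, Finset.sum_const, nsmul_eq_mul, Finset.card_univ, Fintype.card_fin]
    calc ∑ k, ∑ i, p k * q (b i : H) k ^ 2 = ∑ k, p k * ∑ i, q (b i : H) k ^ 2 := by
          refine Finset.sum_congr rfl fun k _ => ?_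
          rw [Finset.mul_sum]
      _ ≤ ∑ k, p k * (18 / 5 * n) :=
          Finset.sum_le_sum fun k _ => mul_le_mul_of_nonneg_left (hqb k) (hp k)
      _ = 12 * (3 / 10 * n) * ∑ k, p k := by rw [← Finset.sum_mul]; ring
      _ ≤ 12 * (finrank ℝ S : ℝ) * ∑ k, p k := by
          refine mul_le_mul_of_nonneg_right ?_ (Finset.sum_nonneg fun k _ => hp k)
          linarith
      _ = (finrank ℝ S : ℝ) * (12 * ∑ k, p k) := by ring
  have hpos : (Finset.univ : Finset (Fin (finrank ℝ S))).Nonempty := by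
    have h1 : (0 : ℝ) < finrank ℝ S := by linarith
    have h2 : 0 < finrank ℝ S := by exact_mod_cast h1
    exact ⟨⟨0, h2⟩, Finset.mem_univ _⟩
  obtain ⟨i, -, hi⟩ := Finset.exists_le_of_sum_le hpos htot
  refine ⟨(b i : H), hSS₁ (b i).2, ?_, q (b i : H), ?_, hq _ (b i).2, hi⟩
  · have := b.norm_eq_one i
    exact this
  · intro k hk
    simp only [q, if_pos hk]

end Pool.Agent.Helper55.Zono
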