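import Pool.Agent.Helper55.Zono.Direction

/-!
Halving the number of fractional coordinates, by a compactness argument.
-/

namespace Pool.Agent.Helper55.Zono

open Module Finset
open scoped InnerProductSpace

lemma exists_small {α : Type*} [Finite α] (a b m : α → ℝ) (h : ∀ j, a j < m j) :
    ∃ γ₀ > 0, ∀ γ, 0 < γ → γ ≤ γ₀ → ∀ j, a j + γ * |b j| ≤ m j := by
  have h1 : ∀ j, ∃ γ₀ > 0, ∀ γ, 0 < γ → γ ≤ γ₀ → a j + γ * |b j| ≤ m j := by
    intro j
    have hb : 0 < |b j| + 1 := by positivity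
    have hm : 0 < m j - a j := by linarith [h j]
    refine ⟨(m j - a j) / (|b j| + 1), by positivity, fun γ hγ hγ' => ?_⟩
    have h2 : γ * (|b j| + 1) ≤ m j - a j := by
      rwa [le_div_iff₀ hb] at hγ'
    nlinarith
  choose g hg0 hg using h1
  rcases isEmpty_or_nonempty α with hα | hα
  · exact ⟨1, one_pos, fun γ _ _ j => (hα.false j).elim⟩
  · obtain ⟨j₀, hj₀⟩ := Finite.exists_min g
    exact ⟨g j₀, hg0 j₀, fun γ hγ hγ' j => hg j γ hγ (hγ'.trans (hj₀ j))⟩

lemma cosh_le_one_add_sq {s : ℝ} (hs : s ^ 2 ≤ 1) : Real.cosh s ≤ 1 + s ^ 2 := by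
  refine (Real.cosh_le_exp_half_sq s).trans ?_
  have h1 : 1 - s ^ 2 / 2 ≤ Real.exp (-(s ^ 2 / 2)) := by
    have := Real.add_one_le_exp (-(s ^ 2 / 2))
    linarith
  have h2 : Real.exp (s ^ 2 / 2) * Real.exp (-(s ^ 2 / 2)) = 1 := by
    rw [← Real.exp_add]; simp
  have h3 : 0 < Real.exp (s ^ 2 / 2) := Real.exp_pos _
  have h4 : Real.exp (s ^ 2 / 2) * (1 - s ^ 2 / 2) ≤ 1 :=
    (mul_le_mul_of_nonneg_left h1 h3.le).trans h2.le
  have h5 : 1 ≤ (1 + s ^ 2) * (1 - s ^ 2 / 2) := by nlinarith [sq_nonneg s]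
  have h6 : 0 < 1 - s ^ 2 / 2 := by linarith
  by_contra hcon
  rw [not_le] at hcon
  have := mul_lt_mul_of_pos_right hcon h6
  linarith

lemma exp_twelve_lt : Real.exp 12 < 162755 := by
  have h1 : Real.exp 12 = Real.exp 1 ^ 12 := by
    rw [← Real.exp_nat_mul]; norm_num
  rw [h1]
  have h2 := Real.exp_one_lt_d9
  calc Real.exp 1 ^ 12 < 2.7182818286 ^ 12 :=
        pow_lt_pow_left₀ h2 (Real.exp_pos _).le (by norm_num)
    _ < 162755 := by norm_num

variable {V : Type*} [NormedAddCommGroup V] [InnerProductSpace ℝ V] [FiniteDimensional ℝ V]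

/-- Partial colouring. -/
theorem partial_coloring {κ ι : Type*} [Fintype κ] [Fintype ι] (w : κ → V) (c : κ → ℝ)
    (hc : ∀ k, 0 < c k) (hA1 : ∀ θ : V, ∑ k, (⟪w k, θ⟫_ℝ / c k) • w k = θ)
    (hA2 : ∀ k, ‖w k‖ ≤ 2 * c k) (D : ℝ) (hA3 : ∑ k, c k ≤ 4 * D)
    (T : κ → ι → ℝ) (hT : ∀ k i, |T k i| ≤ 1) (hn : 10 ≤ Fintype.card ι)
    (hnD : (Fintype.card ι : ℝ) ≤ D) (x₀ : ι → ℝ) (hx₀ : ∀ i, |x₀ i| ≤ 1) :
    ∃ (x : ι → ℝ) (Z : κ → ℝ), (∀ i, |x i| ≤ 1) ∧
      2 * (Finset.univ.filter fun i => |x i| < 1).card ≤ Fintype.card ι ∧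
      (∀ k, |Z k| ≤ 400 * √√((Fintype.card ι : ℝ) * D)) ∧
      ∑ k, (∑ i, T k i * (x i - x₀ i)) • w k = ∑ k, Z k • w k := by
  classical
  set n : ℝ := (Fintype.card ι : ℝ) with hndef
  have hn' : (10 : ℝ) ≤ n := by
    rw [hndef]; exact_mod_cast hn
  have hn0 : 0 < n := by linarith
  have hD0 : 0 < D := by linarith
  set t : ℝ := 400 * √√(n * D) with ht
  set l : ℝ := 1 / √n with hl
  have hsn : 0 < √n := Real.sqrt_pos.2 hn0
  have hl0 : 0 < l := by positivity
  have hl2 : l ^ 2 = 1 / n := by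
    rw [hl, div_pow, one_pow, Real.sq_sqrt hn0.le]
  have ht0 : 0 < t := by positivity
  have ht4 : t ^ 4 = 400 ^ 4 * (n * D) := by
    rw [ht, mul_pow]
    congr 1
    have h1 : √√(n * D) ^ 4 = (√√(n * D) ^ 2) ^ 2 := by ring
    rw [h1, Real.sq_sqrt (Real.sqrt_nonneg _), Real.sq_sqrt (by positivity)]
  let Φ : (κ → ℝ) → ℝ := fun Z => ∑ k, c k * Real.cosh (l * Z k)
  let S : Set ((ι → ℝ) × (κ → ℝ)) := {P | (∀ i, |P.1 i| ≤ 1) ∧ (∀ k, |P.2 k| ≤ t) ∧
    ∑ k, (∑ i, T k i * (P.1 i - x₀ i)) • w k = ∑ k, P.2 k • w k ∧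
    Φ P.2 ≤ (∑ k, c k) * Real.exp (12 / n * (∑ i, P.1 i ^ 2 - ∑ i, x₀ i ^ 2))}
  have hScomp : IsCompact S := by
    have hbox : IsCompact ((Set.univ.pi fun _ : ι => Set.Icc (-1 : ℝ) 1) ×ˢ
        (Set.univ.pi fun _ : κ => Set.Icc (-t) t)) :=
      (isCompact_univ_pi fun _ => isCompact_Icc).prod (isCompact_univ_pi fun _ => isCompact_Icc)
    refine hbox.of_isClosed_subset ?_ ?_
    · refine IsClosed.and ?_ (IsClosed.and ?_ (IsClosed.and ?_ ?_))
      · simp only [Set.ofPred_forall]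
        exact isClosed_iInter fun i => isClosed_le (by fun_prop) continuous_const
      · simp only [Set.ofPred_forall]
        exact isClosed_iInter fun k => isClosed_le (by fun_prop) continuous_const
      · exact isClosed_eq (by fun_prop) (by fun_prop)
      · refine isClosed_le ?_ ?_
        · exact continuous_finsetSum _ fun k _ => continuous_const.mul
            (Real.continuous_cosh.comp (by fun_prop))
        · fun_prop
    · rintro ⟨x, Z⟩ ⟨h1, h2, -, -⟩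
      refine ⟨fun i _ => abs_le.1 (h1 i), fun k _ => abs_le.1 (h2 k)⟩
  have hSne : S.Nonempty := by
    refine ⟨(x₀, 0), hx₀, fun k => by simpa using ht0.le, by simp, ?_⟩
    simp [Φ]
  obtain ⟨⟨x, Z⟩, ⟨hx1, hZt, hlin, hΦ⟩, hmax⟩ := hScomp.exists_isMaxOn hSne
    (f := fun P : (ι → ℝ) × (κ → ℝ) => ∑ i, P.1 i ^ 2) (by fun_prop)
  simp only at hx1 hZt hlin hΦ
  refine ⟨x, Z, hx1, ?_, hZt, hlin⟩
  by_contra hcon
  rw [not_le] at hcon
  set alive := Finset.univ.filter fun i => |x i| < 1 with halive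
  -- the saturated coordinates
  let B := Finset.univ.filter fun k => |Z k| = t
  have hxsq : ∑ i, x i ^ 2 ≤ n := by
    calc ∑ i, x i ^ 2 ≤ ∑ _i : ι, (1 : ℝ) := by
          refine Finset.sum_le_sum fun i _ => ?_
          have := hx1 i
          rw [← sq_abs]
          nlinarith [abs_nonneg (x i)]
      _ = n := by simp [hndef]
  have hx₀sq : 0 ≤ ∑ i, x₀ i ^ 2 := Finset.sum_nonneg fun i _ => sq_nonneg _
  have hc0 : 0 ≤ ∑ k, c k := Finset.sum_nonneg fun k _ => (hc k).le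
  have hΦbound : Φ Z ≤ 4 * D * Real.exp 12 := by
    refine hΦ.trans ?_
    refine mul_le_mul hA3 (Real.exp_le_exp.2 ?_) (Real.exp_pos _).le (by positivity)
    have h1 : 12 / n * (∑ i, x i ^ 2 - ∑ i, x₀ i ^ 2) ≤ 12 / n * n := by
      refine mul_le_mul_of_nonneg_left (by linarith) (by positivity)
    rw [div_mul_cancel₀ _ hn0.ne'] at h1
    exact h1
  have hcosh : 400 ^ 4 * (D / n) / 48 ≤ Real.cosh (l * t) := by
    have h1 : Real.exp (l * t) / 2 ≤ Real.cosh (l * t) := by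
      rw [Real.cosh_eq]
      have := Real.exp_pos (-(l * t))
      linarith
    have h2 := Real.pow_div_factorial_le_exp (l * t) (by positivity) 4
    have h3 : (l * t) ^ 4 = 400 ^ 4 * (D / n) := by
      rw [mul_pow, ht4]
      have h4 : l ^ 4 = (l ^ 2) ^ 2 := by ring
      rw [h4, hl2]
      field_simp
    rw [h3] at h2
    have h5 : ((Nat.factorial 4 : ℕ) : ℝ) = 24 := by norm_num [Nat.factorial]
    rw [h5] at h2
    linarith
  have hB : ∑ k ∈ B, c k ≤ n / 400 := by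
    have h1 : (∑ k ∈ B, c k) * Real.cosh (l * t) ≤ Φ Z := by
      rw [Finset.sum_mul]
      calc ∑ k ∈ B, c k * Real.cosh (l * t) = ∑ k ∈ B, c k * Real.cosh (l * Z k) := by
            refine Finset.sum_congr rfl fun k hk => ?_
            have h2 : |Z k| = t := (Finset.mem_filter.1 hk).2
            rw [← Real.cosh_abs (l * Z k), abs_mul, h2, abs_of_pos hl0]
        _ ≤ Φ Z := Finset.sum_le_sum_of_subset_of_nonneg (Finset.subset_univ _)
            fun k _ _ => mul_nonneg (hc k).le (Real.cosh_pos _).le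
    have h2 : 0 ≤ ∑ k ∈ B, c k := Finset.sum_nonneg fun k _ => (hc k).le
    have h3 : (∑ k ∈ B, c k) * (400 ^ 4 * (D / n) / 48) ≤ 4 * D * 162755 := by
      refine (mul_le_mul_of_nonneg_left hcosh h2).trans (h1.trans (hΦbound.trans ?_))
      exact mul_le_mul_of_nonneg_left exp_twelve_lt.le (by positivity)
    have h4 : (∑ k ∈ B, c k) * (400 ^ 4 / 48) * D ≤ 4 * 162755 * n * D := by
      have h5 : (∑ k ∈ B, c k) * (400 ^ 4 * (D / n) / 48) * n =
          (∑ k ∈ B, c k) * (400 ^ 4 / 48) * D := by field_simp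
      rw [← h5]
      calc (∑ k ∈ B, c k) * (400 ^ 4 * (D / n) / 48) * n ≤ 4 * D * 162755 * n :=
            mul_le_mul_of_nonneg_right h3 hn0.le
        _ = 4 * 162755 * n * D := by ring
    have h6 := le_of_mul_le_mul_right h4 hD0
    have h7 : (∑ k ∈ B, c k) * (400 ^ 4 / 48) ≤ (n / 400) * (400 ^ 4 / 48) := by
      refine h6.trans ?_
      nlinarith
    exact le_of_mul_le_mul_right h7 (by norm_num)
  -- the subspace of admissible directions
  let xE : EuclideanSpace ℝ ι := WithLp.toLp 2 x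
  obtain ⟨S₁, -, hS₁ker, hS₁rank⟩ := exists_submodule_ker (⊤ : Submodule ℝ (EuclideanSpace ℝ ι))
    (α := (aliveᶜ : Finset ι) ⊕ Unit)
    (fun a => Sum.elim (fun i : (aliveᶜ : Finset ι) => innerₗ (EuclideanSpace ℝ ι)
      (EuclideanSpace.single (i : ι) (1 : ℝ)))
      (fun _ => innerₗ (EuclideanSpace ℝ ι) xE) a)
  have hS₁dead : ∀ h ∈ S₁, ∀ i, i ∉ alive → h i = 0 := by
    intro h hh i hi
    have h1 := hS₁ker h hh (Sum.inl ⟨i, Finset.mem_compl.2 hi⟩)
    simp only [Sum.elim_inl, innerₗ_apply_apply] at h1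
    rw [EuclideanSpace.inner_single_left] at h1
    simpa using h1
  have hS₁orth : ∀ h ∈ S₁, ∑ i, x i * h i = 0 := by
    intro h hh
    have h1 := hS₁ker h hh (Sum.inr ())
    simp only [Sum.elim_inr, innerₗ_apply_apply] at h1
    rw [← h1, PiLp.inner_apply]
    refine Finset.sum_congr rfl fun i _ => ?_
    simp [xE, mul_comm]
  have hS₁dim : n / 2 - 1 ≤ (finrank ℝ S₁ : ℝ) := by
    have h1 : finrank ℝ (⊤ : Submodule ℝ (EuclideanSpace ℝ ι)) = Fintype.card ι := by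
      rw [finrank_top, finrank_euclideanSpace]
    have h2 : Fintype.card ((aliveᶜ : Finset ι) ⊕ Unit) = (Fintype.card ι - alive.card) + 1 := by
      simp
    rw [h1, h2] at hS₁rank
    have h3 : alive.card ≤ Fintype.card ι := Finset.card_le_univ _
    have h4 : alive.card ≤ finrank ℝ S₁ + 1 := by omega
    have h5 : Fintype.card ι < 2 * (finrank ℝ S₁ + 1) := by omega
    have h6 : n < 2 * ((finrank ℝ S₁ : ℝ) + 1) := by
      rw [hndef]; exact_mod_cast h5
    linarith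
  let τ : κ → EuclideanSpace ℝ ι := fun k => WithLp.toLp 2 (T k)
  have hτ : ∀ k, ‖τ k‖ ^ 2 ≤ n := by
    intro k
    rw [EuclideanSpace.real_norm_sq_eq]
    calc ∑ i, (τ k) i ^ 2 ≤ ∑ _i : ι, (1 : ℝ) := by
          refine Finset.sum_le_sum fun i _ => ?_
          have := hT k i
          show T k i ^ 2 ≤ 1
          rw [← sq_abs]
          nlinarith [abs_nonneg (T k i)]
      _ = n := by simp [hndef]
  obtain ⟨h, hhS, hh1, q, hqB, hq1, hq2⟩ := exists_direction w c hc hA1 hA2 τ n hn' hτ S₁ hS₁dim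
    B hB (fun k => c k * Real.cosh (l * Z k)) (fun k => mul_nonneg (hc k).le (Real.cosh_pos _).le)
  have hinner : ∀ k, ⟪τ k, h⟫_ℝ = ∑ i, T k i * h i := by
    intro k
    rw [PiLp.inner_apply]
    refine Finset.sum_congr rfl fun i _ => ?_
    simp [τ, mul_comm]
  simp only [hinner] at hq1
  have hhsq : ∑ i, h i ^ 2 = 1 := by
    rw [← EuclideanSpace.real_norm_sq_eq, hh1]; norm_num
  -- small step
  obtain ⟨γ₁, hγ₁, hγ₁'⟩ := exists_small (α := alive) (fun i => |x i|) (fun i => h i) (fun _ => 1)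
    (fun i => (Finset.mem_filter.1 i.2).2)
  obtain ⟨γ₂, hγ₂, hγ₂'⟩ := exists_small (α := (Bᶜ : Finset κ)) (fun k => |Z k|) (fun k => q k)
    (fun _ => t) (fun k => lt_of_le_of_ne (hZt k) fun heq =>
      (Finset.mem_compl.1 k.2) (Finset.mem_filter.2 ⟨Finset.mem_univ _, heq⟩))
  obtain ⟨γ₃, hγ₃, hγ₃'⟩ := exists_small (α := κ) (fun _ => 0) (fun k => l * q k)
    (fun _ => 1) (fun _ => one_pos)
  let γ := min γ₁ (min γ₂ γ₃)
  have hγ : 0 < γ := lt_min hγ₁ (lt_min hγ₂ hγ₃)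
  have hγx : ∀ s : ℝ, |s| = 1 → ∀ i, |x i + s * γ * h i| ≤ 1 := by
    intro s hs i
    by_cases hi : i ∈ alive
    · have h1 := hγ₁' γ hγ (min_le_left _ _) ⟨i, hi⟩
      simp only at h1
      calc |x i + s * γ * h i| ≤ |x i| + |s * γ * h i| := abs_add_le _ _
        _ = |x i| + γ * |h i| := by rw [abs_mul, abs_mul, hs, abs_of_pos hγ, one_mul]
        _ ≤ 1 := h1
    · rw [hS₁dead h hhS i hi, mul_zero, add_zero]
      exact hx1 i
  have hγZ : ∀ s : ℝ, |s| = 1 → ∀ k, |Z k + s * γ * q k| ≤ t := by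
    intro s hs k
    by_cases hk : k ∈ B
    · rw [hqB k hk, mul_zero, add_zero]
      exact hZt k
    · have h1 := hγ₂' γ hγ ((min_le_right _ _).trans (min_le_left _ _)) ⟨k, Finset.mem_compl.2 hk⟩
      simp only at h1
      calc |Z k + s * γ * q k| ≤ |Z k| + |s * γ * q k| := abs_add_le _ _
        _ = |Z k| + γ * |q k| := by rw [abs_mul, abs_mul, hs, abs_of_pos hγ, one_mul]
        _ ≤ t := h1
  have hγq : ∀ k, (l * (γ * q k)) ^ 2 ≤ 1 := by
    intro k
    have h1 := hγ₃' γ hγ ((min_le_right _ _).trans (min_le_right _ _)) k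
    rw [zero_add] at h1
    have h2 : |l * (γ * q k)| ≤ 1 := by
      rw [show l * (γ * q k) = γ * (l * q k) by ring, abs_mul, abs_of_pos hγ]
      exact h1
    rw [← sq_abs]
    nlinarith [abs_nonneg (l * (γ * q k))]
  have hlin' : ∀ s : ℝ, ∑ k, (∑ i, T k i * (x i + s * γ * h i - x₀ i)) • w k =
      ∑ k, (Z k + s * γ * q k) • w k := by
    intro s
    have h1 : ∑ k, (∑ i, T k i * (x i + s * γ * h i - x₀ i)) • w k =
        ∑ k, (∑ i, T k i * (x i - x₀ i)) • w k + (s * γ) • ∑ k, (∑ i, T k i * h i) • w k := by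
      rw [Finset.smul_sum, ← Finset.sum_add_distrib]
      refine Finset.sum_congr rfl fun k _ => ?_
      rw [smul_smul, ← add_smul]
      congr 1
      rw [Finset.mul_sum, ← Finset.sum_add_distrib]
      refine Finset.sum_congr rfl fun i _ => ?_
      ring
    rw [h1, hlin, hq1, Finset.smul_sum, ← Finset.sum_add_distrib]
    refine Finset.sum_congr rfl fun k _ => ?_
    rw [smul_smul, ← add_smul]
  have hsq : ∀ s : ℝ, s ^ 2 = 1 → ∑ i, (x i + s * γ * h i) ^ 2 = ∑ i, x i ^ 2 + γ ^ 2 := by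
    intro s hs
    have h1 : ∑ i, (x i + s * γ * h i) ^ 2 =
        ∑ i, x i ^ 2 + 2 * s * γ * ∑ i, x i * h i + s ^ 2 * γ ^ 2 * ∑ i, h i ^ 2 := by
      rw [Finset.mul_sum, Finset.mul_sum, ← Finset.sum_add_distrib, ← Finset.sum_add_distrib]
      refine Finset.sum_congr rfl fun i _ => ?_
      ring
    rw [h1, hS₁orth h hhS, hhsq, hs]
    ring
  have hΦsum : Φ (fun k => Z k + 1 * γ * q k) + Φ (fun k => Z k + (-1) * γ * q k) ≤
      2 * (Φ Z * Real.exp (12 / n * γ ^ 2)) := by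
    have h1 : ∀ k, c k * Real.cosh (l * (Z k + 1 * γ * q k)) +
        c k * Real.cosh (l * (Z k + (-1) * γ * q k)) ≤
        2 * (c k * Real.cosh (l * Z k)) + 2 * (l ^ 2 * γ ^ 2) *
          (c k * Real.cosh (l * Z k) * q k ^ 2) := by
      intro k
      have e1 : l * (Z k + 1 * γ * q k) = l * Z k + l * (γ * q k) := by ring
      have e2 : l * (Z k + (-1) * γ * q k) = l * Z k - l * (γ * q k) := by ring
      rw [e1, e2, Real.cosh_add, Real.cosh_sub]
      have h2 := cosh_le_one_add_sq (hγq k)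
      have h3 : 0 ≤ c k * Real.cosh (l * Z k) := mul_nonneg (hc k).le (Real.cosh_pos _).le
      have h4 := mul_le_mul_of_nonneg_left h2 h3
      calc c k * (Real.cosh (l * Z k) * Real.cosh (l * (γ * q k)) +
            Real.sinh (l * Z k) * Real.sinh (l * (γ * q k))) +
          c k * (Real.cosh (l * Z k) * Real.cosh (l * (γ * q k)) -
            Real.sinh (l * Z k) * Real.sinh (l * (γ * q k)))
          = 2 * (c k * Real.cosh (l * Z k) * Real.cosh (l * (γ * q k))) := by ring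
        _ ≤ 2 * (c k * Real.cosh (l * Z k) * (1 + (l * (γ * q k)) ^ 2)) := by linarith
        _ = _ := by ring
    have h5 : Φ (fun k => Z k + 1 * γ * q k) + Φ (fun k => Z k + (-1) * γ * q k) ≤
        2 * Φ Z + 2 * (l ^ 2 * γ ^ 2) * ∑ k, c k * Real.cosh (l * Z k) * q k ^ 2 := by
      simp only [Φ]
      rw [← Finset.sum_add_distrib, Finset.mul_sum, Finset.mul_sum, ← Finset.sum_add_distrib]
      exact Finset.sum_le_sum fun k _ => h1 k
    have h6 : 2 * (l ^ 2 * γ ^ 2) * ∑ k, c k * Real.cosh (l * Z k) * q k ^ 2 ≤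
        2 * (l ^ 2 * γ ^ 2) * (12 * Φ Z) := by
      refine mul_le_mul_of_nonneg_left ?_ (by positivity)
      simpa only using hq2
    have hΦ0 : 0 ≤ Φ Z := Finset.sum_nonneg fun k _ => mul_nonneg (hc k).le (Real.cosh_pos _).le
    have h7 : 1 + 12 / n * γ ^ 2 ≤ Real.exp (12 / n * γ ^ 2) := by
      have := Real.add_one_le_exp (12 / n * γ ^ 2)
      linarith
    calc Φ (fun k => Z k + 1 * γ * q k) + Φ (fun k => Z k + (-1) * γ * q k)
        ≤ 2 * Φ Z + 2 * (l ^ 2 * γ ^ 2) * (12 * Φ Z) := h5.trans (by linarith)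
      _ = 2 * (Φ Z * (1 + 12 / n * γ ^ 2)) := by rw [hl2]; ring
      _ ≤ 2 * (Φ Z * Real.exp (12 / n * γ ^ 2)) := by
          have := mul_le_mul_of_nonneg_left h7 hΦ0
          linarith
  obtain ⟨s, hs1, hs2⟩ : ∃ s : ℝ, |s| = 1 ∧ Φ (fun k => Z k + s * γ * q k) ≤
      Φ Z * Real.exp (12 / n * γ ^ 2) := by
    by_contra hno
    push Not at hno
    have h1 := hno 1 (by simp)
    have h2 := hno (-1) (by simp)
    linarith
  have hs3 : s ^ 2 = 1 := by rw [← sq_abs, hs1]; norm_num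
  have hmem : ((fun i => x i + s * γ * h i), (fun k => Z k + s * γ * q k)) ∈ S := by
    refine ⟨hγx s hs1, hγZ s hs1, hlin' s, ?_⟩
    show Φ (fun k => Z k + s * γ * q k) ≤
      (∑ k, c k) * Real.exp (12 / n * (∑ i, (x i + s * γ * h i) ^ 2 - ∑ i, x₀ i ^ 2))
    rw [hsq s hs3]
    refine hs2.trans ?_
    have h1 : Real.exp (12 / n * (∑ i, x i ^ 2 + γ ^ 2 - ∑ i, x₀ i ^ 2)) =
        Real.exp (12 / n * (∑ i, x i ^ 2 - ∑ i, x₀ i ^ 2)) * Real.exp (12 / n * γ ^ 2) := by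
      rw [← Real.exp_add]; congr 1; ring
    rw [h1, ← mul_assoc]
    exact mul_le_mul_of_nonneg_right hΦ (Real.exp_pos _).le
  have h1 := hmax hmem
  simp only [Set.mem_ofPred_eq] at h1
  rw [hsq s hs3] at h1
  have := pow_pos hγ 2
  linarith

end Pool.Agent.Helper55.Zono
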