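import Mathlib

/-!
Spectral decomposition of a finite sum of rank-one operators.
-/

namespace Pool.Agent.Helper55.Zono

open Module Finset
open scoped InnerProductSpace

variable {V : Type*} [NormedAddCommGroup V] [InnerProductSpace ℝ V] [FiniteDimensional ℝ V]

/-- Spectral decomposition of `x ↦ ∑ ⟪v k, x⟫ v k`. -/
lemma exists_spec {κ : Type*} (s : Finset κ) (v : κ → V) :
    ∃ (f : OrthonormalBasis (Fin (finrank ℝ V)) ℝ V) (μ : Fin (finrank ℝ V) → ℝ),
      (∀ j, 0 ≤ μ j) ∧ (∀ x, ∑ k ∈ s, ⟪v k, x⟫_ℝ • v k = ∑ j, (μ j * ⟪f j, x⟫_ℝ) • f j) ∧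
      (∀ x, ∑ k ∈ s, ⟪v k, x⟫_ℝ ^ 2 = ∑ j, μ j * ⟪f j, x⟫_ℝ ^ 2) ∧
      ∑ j, μ j = ∑ k ∈ s, ‖v k‖ ^ 2 := by
  let A : V →ₗ[ℝ] V := ∑ k ∈ s, (LinearMap.toSpanSingleton ℝ V (v k)).comp (innerₗ V (v k))
  have hA : ∀ x, A x = ∑ k ∈ s, ⟪v k, x⟫_ℝ • v k := by
    intro x
    simp only [A, LinearMap.sum_apply, LinearMap.comp_apply, innerₗ_apply_apply,
      LinearMap.toSpanSingleton_apply]
  have hquad : ∀ x, ⟪x, A x⟫_ℝ = ∑ k ∈ s, ⟪v k, x⟫_ℝ ^ 2 := by
    intro x
    rw [hA, inner_sum]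
    refine Finset.sum_congr rfl fun k _ => ?_
    rw [real_inner_smul_right, real_inner_comm, sq]
  have hsym : A.IsSymmetric := by
    intro x y
    rw [hA, hA, sum_inner, inner_sum]
    refine Finset.sum_congr rfl fun k _ => ?_
    rw [real_inner_smul_left, real_inner_smul_right, real_inner_comm x (v k)]
    ring
  let f := hsym.eigenvectorBasis rfl
  let μ := hsym.eigenvalues rfl
  have hAf : ∀ j, A (f j) = μ j • f j := fun j => by
    have := hsym.apply_eigenvectorBasis rfl j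
    simpa only [RCLike.ofReal_real_eq_id, id] using this
  have hμ : ∀ j, μ j = ∑ k ∈ s, ⟪v k, f j⟫_ℝ ^ 2 := by
    intro j
    rw [← hquad, hAf, real_inner_smul_right, real_inner_self_eq_norm_sq, f.norm_eq_one]
    ring
  have hAx : ∀ x, A x = ∑ j, (μ j * ⟪f j, x⟫_ℝ) • f j := by
    intro x
    conv_lhs => rw [← f.sum_repr' x]
    rw [map_sum]
    refine Finset.sum_congr rfl fun j _ => ?_
    rw [map_smul, hAf, smul_smul, mul_comm]
  refine ⟨f, μ, fun j => ?_, fun x => ?_, fun x => ?_, ?_⟩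
  · rw [hμ]
    exact Finset.sum_nonneg fun k _ => sq_nonneg _
  · rw [← hA, hAx]
  · rw [← hquad, hAx, inner_sum]
    refine Finset.sum_congr rfl fun j _ => ?_
    rw [real_inner_smul_right, real_inner_comm]
    ring
  · simp_rw [hμ]
    rw [Finset.sum_comm]
    refine Finset.sum_congr rfl fun k _ => ?_
    have := f.sum_sq_norm_inner_right (v k)
    rw [← this]
    refine Finset.sum_congr rfl fun j _ => ?_
    rw [real_inner_comm, Real.norm_eq_abs, sq_abs]

/-- Counting the large eigenvalues. -/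
lemma card_large {ι : Type*} [Fintype ι] (μ : ι → ℝ) (hμ : ∀ j, 0 ≤ μ j) {a t : ℝ}
    (hsum : ∑ j, μ j ≤ t) :
    a * ((Finset.univ.filter fun j => a < μ j).card : ℝ) ≤ t := by
  have h1 : ∑ j ∈ Finset.univ.filter fun j => a < μ j, a ≤
      ∑ j ∈ Finset.univ.filter fun j => a < μ j, μ j :=
    Finset.sum_le_sum fun j hj => (Finset.mem_filter.1 hj).2.le
  have h2 : ∑ j ∈ Finset.univ.filter fun j => a < μ j, μ j ≤ ∑ j, μ j :=
    Finset.sum_le_sum_of_subset_of_nonneg (Finset.filter_subset _ _) fun j _ _ => hμ j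
  rw [Finset.sum_const, nsmul_eq_mul] at h1
  linarith

/-- Restricting to the common kernel of finitely many functionals. -/
lemma exists_submodule_ker {H : Type*} [NormedAddCommGroup H] [InnerProductSpace ℝ H]
    [FiniteDimensional ℝ H] {α : Type*} [Fintype α] (S : Submodule ℝ H) (φ : α → H →ₗ[ℝ] ℝ) :
    ∃ S' ≤ S, (∀ h ∈ S', ∀ a, φ a h = 0) ∧ finrank ℝ S ≤ finrank ℝ S' + Fintype.card α := by
  let Φ : S →ₗ[ℝ] (α → ℝ) := LinearMap.pi fun a => (φ a).comp S.subtype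
  refine ⟨(LinearMap.ker Φ).map S.subtype, ?_, ?_, ?_⟩
  · exact Submodule.map_subtype_le _ _
  · rintro h ⟨⟨x, hx⟩, hk, rfl⟩ a
    have hk' : Φ ⟨x, hx⟩ = 0 := hk
    exact congrFun hk' a
  · have h1 := LinearMap.finrank_range_add_finrank_ker Φ
    have h2 : finrank ℝ (LinearMap.range Φ) ≤ Fintype.card α := by
      have := Submodule.finrank_le (LinearMap.range Φ)
      simpa using this
    have h3 : finrank ℝ ((LinearMap.ker Φ).map S.subtype) = finrank ℝ (LinearMap.ker Φ) :=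
      Submodule.finrank_map_subtype_eq S _
    omega

end Pool.Agent.Helper55.Zono
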